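import Mathlib
import Pool.Agent.T2H62.ME.F

set_option autoImplicit false

/-! # The limit law of the number of sieved random primes between consecutive squares

Random primes: every integer `n` without a prime factor `p ≤ A log n` is chosen with probability
`∏_{p ≤ A log n} (1 - 1/p)⁻¹ / log n` (at most `1`), the other integers are not chosen, and the choices are independent
(`A = 1`: Granville's modification of Cramer's model). Almost surely, for the set `R` of the random primes: the number
`N(r)` of the elements of `R` between `r ^ 2` and `r' ^ 2`, `r < r'` consecutive in `R`, divided by `r`, has the standard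
exponential limit law, as `r` runs through the elements of `R` in `(N, 2 N]` and `N → ∞`. -/

namespace Pool.Agent.Results.MP_739ba1_nt.ExponentialLaw

open Finset Filter Topology MeasureTheory ProbabilityTheory

open scoped Classical in
/-- the probability that `n` is a random prime -/
noncomputable def prob (A : ℝ) (n : ℕ) : ℝ :=
  if ∀ p : ℕ, p.Prime → (p : ℝ) ≤ A * Real.log n → ¬ p ∣ n then
    min 1 ((∏ p ∈ (Icc 1 ⌊A * Real.log n⌋₊).filter Nat.Prime, (1 - (p : ℝ)⁻¹)⁻¹) / Real.log n) else 0

/-- the events `S n` (`n` is a random prime) are independent with the probabilities `prob A n` -/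
def Model (A : ℝ) {Ω : Type*} [MeasurableSpace Ω] (μ : Measure Ω) (S : ℕ → Set Ω) : Prop :=
  IsProbabilityMeasure μ ∧ (∀ n, MeasurableSet (S n)) ∧ iIndepSet S μ ∧
    ∀ n, μ (S n) = ENNReal.ofReal (prob A n)

/-- `r < r'` are consecutive elements of `R` -/
def Consecutive (R : Set ℕ) (r r' : ℕ) : Prop := r ∈ R ∧ r' ∈ R ∧ r < r' ∧ ∀ n ∈ Ioo r r', n ∉ R

open scoped Classical in
/-- the number of the elements of `R` strictly between `r ^ 2` and `r' ^ 2` -/
noncomputable def between (R : Set ℕ) (r r' : ℕ) : ℕ := ((Ioo (r ^ 2) (r' ^ 2)).filter (fun n => n ∈ R)).card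

open scoped Classical in
/-- the number of the elements of `R` in `(N, 2 N]` -/
noncomputable def total (R : Set ℕ) (N : ℕ) : ℕ := ((Ioc N (2 * N)).filter (fun r => r ∈ R)).card

open scoped Classical in
/-- the number of the elements `r` of `R` in `(N, 2 N]` such that more than `lam r` elements of `R` lie between
`r ^ 2` and `r' ^ 2`, where `r'` is the successor of `r` in `R` -/
noncomputable def large (R : Set ℕ) (lam : ℝ) (N : ℕ) : ℕ :=
  ((Ioc N (2 * N)).filter (fun r => ∃ r' : ℕ, Consecutive R r r' ∧ lam * r < between R r r')).card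

theorem result (A : ℝ) (hA : 0 < A) :
    -- the model exists
    (∃ (μ : Measure (ℕ → Bool)) (S : ℕ → Set (ℕ → Bool)), Model A μ S) ∧
    ∀ (Ω : Type) [MeasurableSpace Ω] (μ : Measure Ω) (S : ℕ → Set Ω), Model A μ S →
      ∀ᵐ ω ∂μ,
        -- the exponential law
        (∀ lam : ℝ, 0 < lam → Tendsto (fun N : ℕ => (large {n | ω ∈ S n} lam N : ℝ) / total {n | ω ∈ S n} N)
          atTop (𝓝 (Real.exp (-lam)))) ∧
        -- the number of elements
        Tendsto (fun N : ℕ => (total {n | ω ∈ S n} N : ℝ) / (N / Real.log N)) atTop (𝓝 1) := by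
  classical
  have hprob : ∀ n, prob A n = Pool.Agent.T2H53.GW.pr A n := fun n => rfl
  refine ⟨?_, ?_⟩
  · obtain ⟨μ, S, h1, h2, h3, h4⟩ := Pool.Agent.T2H53.GW.exists_model (prob A)
      (fun n => by rw [hprob]; exact Pool.Agent.T2H53.GW.pr_nonneg A n)
      (fun n => by rw [hprob]; exact Pool.Agent.T2H53.GW.pr_le_one A n)
    exact ⟨μ, S, h1, h2, h3, h4⟩
  · rintro Ω _ μ S ⟨hμ, hm, hi, hp⟩
    have hp' : ∀ n, μ.real (S n) = Pool.Agent.T2H53.GW.pr A n := fun n => by
      rw [measureReal_def, hp n, ENNReal.toReal_ofReal (by rw [hprob]; exact Pool.Agent.T2H53.GW.pr_nonneg A n), hprob]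
    filter_upwards [Pool.Agent.T2H62.ME.gap_law hA hm hi hp', Pool.Agent.T2H62.MD.brocard A hA hm hi hp'] with ω hω hω'
    obtain ⟨h1, h2, h3⟩ := hω {n | ω ∈ S n} (fun n => Classical.propDecidable _) rfl
    obtain ⟨hb, -, -⟩ := hω' {n | ω ∈ S n} (fun n => Classical.propDecidable _) rfl
    obtain ⟨R, hR⟩ : ∃ R : Set ℕ, R = {n | ω ∈ S n} := ⟨_, rfl⟩
    rw [← hR] at h1 h2 h3 hb ⊢
    refine ⟨fun lam hlam => ?_, ?_⟩
    · have h4 := Pool.Agent.T2H62.ME.brocard_law (R := R) h1 h2 h3 (between R) (fun δ hδ => by
        filter_upwards [hb δ hδ] with r h5 r' h6 h7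
        have h8 := h5 r' h6 h7
        convert h8 using 6
        unfold between
        congr) lam hlam
      refine h4.congr (fun N => ?_)
      have h5 : ((Ioc N (2 * N)).filter (fun r => ∃ r' : ℕ, (r ∈ R ∧ r' ∈ R ∧ r < r' ∧ ∀ n ∈ Ioo r r', n ∉ R) ∧
          lam * r < between R r r')).card = large R lam N := by
        unfold large
        congr
      have h6 : ((Ioc N (2 * N)).filter (fun n => n ∈ R)).card = total R N := by
        unfold total
        congr
      rw [← h6, ← h5]
    · rw [Metric.tendsto_atTop]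
      intro ε hε
      obtain ⟨n₀, hn₀⟩ := eventually_atTop.1 (h2 (ε / 2) (by positivity))
      refine ⟨n₀ + 3, fun N hN => ?_⟩
      have h4 := hn₀ N (by omega)
      have hN0 : (0 : ℝ) < N := by exact_mod_cast (by omega : 0 < N)
      have hl : 0 < Real.log (N : ℝ) := Real.log_pos (by exact_mod_cast (by omega : 1 < N))
      have h5 : 0 < (N : ℝ) / Real.log N := by positivity
      have h6 : (total R N : ℝ) = (((Ioc N (2 * N)).filter (fun n => n ∈ R)).card : ℝ) := by
        unfold total
        congr
      rw [← h6] at h4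
      rw [Real.dist_eq, show (total R N : ℝ) / (N / Real.log N) - 1 = ((total R N : ℝ) - N / Real.log N) / (N / Real.log N) by
        field_simp, abs_div, abs_of_pos h5, div_lt_iff₀ h5]
      nlinarith

end Pool.Agent.Results.MP_739ba1_nt.ExponentialLaw
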