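import Pool.Agent.T2H62.Tup

/-!
# Exact almost prime patterns between the squares of any two consecutive primes

Let `T` be an admissible set of shifts. For all large consecutive primes `p < p'` the number of the `m` between `p ^ 2` and
`p' ^ 2` such that all `m + h`, `h ∈ T`, are products of a bounded number of large primes, while all the other integers
at distance at most `L` from `m` have a small prime factor, has the order of magnitude which is expected for primes.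
Almost all of these `m` are covered by disjoint monochromatic narrow progressions of such `m`.
-/

set_option autoImplicit false

namespace Pool.Agent.Results.MP_739ba1_nt.PatternsBetweenSquares

open Finset Filter
open Pool.Agent.T2H62.TU

/-- `v > 1` is a product of at most `r` primes, all of them larger than `y` -/
def AlmostPrime (r : ℕ) (y : ℝ) (v : ℕ) : Prop :=
  1 < v ∧ v.primeFactorsList.length ≤ r ∧ ∀ q : ℕ, q.Prime → q ∣ v → y < q

/-- every integer `m + d`, `|d| ≤ L`, `d ∉ T`, has a prime factor at most `C` -/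
def Isolated (T : Finset ℕ) (L C m : ℕ) : Prop :=
  ∀ d : ℤ, |d| ≤ L → (∀ h ∈ T, d ≠ h) → ∃ q : ℕ, q.Prime ∧ q ≤ C ∧ (q : ℤ) ∣ (m : ℤ) + d

open Classical in
/-- the `m` with `p ^ 2 < m < p' ^ 2` such that all `m + h`, `h ∈ T`, are products of at most `t` primes
`> p' ^ (2 / t)`, and `m + T` is isolated -/
noncomputable def Between (T : Finset ℕ) (L C t p p' : ℕ) : Finset ℕ :=
  (Ioo (p ^ 2) (p' ^ 2)).filter (fun m : ℕ =>
    (∀ h ∈ T, AlmostPrime t (((p' ^ 2 : ℕ) : ℝ) ^ (1 / (t : ℝ))) (m + h)) ∧ Isolated T L C m)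

/-- the terms `a, a + d, ..., a + (s - 1) d` of the progression `z = (a, d)` -/
def terms (s : ℕ) (z : ℕ × ℕ) : Finset ℕ := (range s).image (fun i => z.1 + i * z.2)

/-- `p < p'` are consecutive primes -/
def Consecutive (p p' : ℕ) : Prop := p.Prime ∧ p'.Prime ∧ p < p' ∧ ∀ q : ℕ, p < q → q < p' → ¬ q.Prime

theorem result (T : Finset ℕ) (hT : T.Nonempty) (hadm : ∀ p : ℕ, p.Prime → ∃ a : ℕ, ∀ h ∈ T, ¬ p ∣ a + h) (L : ℕ) :
    ∃ C t : ℕ, 1 ≤ t ∧ ∃ κ K : ℝ, 0 < κ ∧ 0 < K ∧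
    ∀ (s r : ℕ) (δ : ℝ), 1 ≤ s → 0 < δ → ∃ b p₀ : ℕ, ∀ p p' : ℕ, p₀ ≤ p → Consecutive p p' →
      κ * ((p' : ℝ) ^ 2 - (p : ℝ) ^ 2) / Real.log p' ^ T.card ≤ ((Between T L C t p p').card : ℝ) ∧
      ((Between T L C t p p').card : ℝ) ≤ K * ((p' : ℝ) ^ 2 - (p : ℝ) ^ 2) / Real.log p' ^ T.card ∧
      4 ≤ (Between T L C t p p').card ∧
      ∀ χ : ℕ → Fin r, ∃ P : Finset (ℕ × ℕ),
        (∀ z ∈ P, 1 ≤ z.2 ∧ (z.2 : ℝ) ≤ Real.log p' ^ b ∧
          ∀ l < s, z.1 + l * z.2 ∈ Between T L C t p p' ∧ χ (z.1 + l * z.2) = χ z.1) ∧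
        (P : Set (ℕ × ℕ)).PairwiseDisjoint (terms s) ∧
        (((Between T L C t p p' \ P.biUnion (terms s)).card : ℕ) : ℝ) ≤
          δ * ((p' : ℝ) ^ 2 - (p : ℝ) ^ 2) / Real.log p' ^ T.card := by
  classical
  obtain ⟨T', hT'⟩ : ∃ T' : Finset ℤ, T' = T.image (fun h : ℕ => (h : ℤ)) := ⟨_, rfl⟩
  have hTc : T'.card = T.card := by
    rw [hT']
    exact card_image_of_injective _ Nat.cast_injective
  have hmem : ∀ d : ℤ, d ∈ T' ↔ ∃ h ∈ T, (h : ℤ) = d := by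
    intro d
    rw [hT', mem_image]
  have hne : T'.Nonempty := by
    obtain ⟨h, hh⟩ := hT
    exact ⟨_, (hmem _).2 ⟨h, hh, rfl⟩⟩
  have hadm' : AdmT 1 T' := by
    intro p hp
    obtain ⟨a, ha⟩ := hadm p hp
    refine ⟨a, fun d hd hdv => ?_⟩
    obtain ⟨h, hh, rfl⟩ := (hmem _).1 hd
    apply ha h hh
    have h1 : ((1 : ℕ) : ℤ) * (a : ℤ) + (h : ℤ) = ((a + h : ℕ) : ℤ) := by push_cast; ring
    rw [h1] at hdv
    exact_mod_cast hdv
  obtain ⟨W, hW⟩ : ∃ W : Finset ℤ, W = (Icc (-(L : ℤ)) L).filter (fun d : ℤ => d ∉ T') := ⟨_, rfl⟩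
  have hTW : ∀ w ∈ W, w ∉ T' := by
    intro w hw
    rw [hW, mem_filter] at hw
    exact hw.2
  obtain ⟨C, t, ht, κ, K, hκ, hK, H⟩ := short 1 le_rfl hadm' hne hTW (1 / 3) (by norm_num)
  rw [hTc] at H
  have hal : ∀ (r : ℕ) (y : ℝ) (v : ℕ), Pool.Agent.X32.Uni.Almost r y (v : ℤ) ↔ AlmostPrime r y v := by
    intro r y v
    unfold Pool.Agent.X32.Uni.Almost AlmostPrime
    rw [Nat.abs_cast, Int.natAbs_natCast]
    constructor
    · rintro ⟨h1, h2, h3⟩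
      exact ⟨by exact_mod_cast h1, h2, fun q hq hd => h3 q hq (Int.natCast_dvd_natCast.2 hd)⟩
    · rintro ⟨h1, h2, h3⟩
      exact ⟨by exact_mod_cast h1, h2, fun q hq hd => h3 q hq (Int.natCast_dvd_natCast.1 hd)⟩
  have heq : ∀ p p' : ℕ, 1 ≤ p' → GN 1 T' W C t (p' ^ 2) (p ^ 2) (p' ^ 2 - 1) = Between T L C t p p' := by
    intro p p' hp'
    have hpos : 1 ≤ p' ^ 2 := Nat.one_le_pow _ _ hp'
    unfold GN Between
    have hI : Ioc (p ^ 2) (p' ^ 2 - 1) = Ioo (p ^ 2) (p' ^ 2) := by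
      ext x
      rw [mem_Ioc, mem_Ioo]
      omega
    rw [hI]
    apply filter_congr
    intro m _
    have c0 : ∀ h : ℕ, ((1 : ℕ) : ℤ) * (m : ℤ) + (h : ℤ) = ((m + h : ℕ) : ℤ) := fun h => by push_cast; ring
    have h1 : (∀ h ∈ T', Pool.Agent.X32.Uni.Almost t (((p' ^ 2 : ℕ) : ℝ) ^ (1 / (t : ℝ))) (((1 : ℕ) : ℤ) * (m : ℤ) + h)) ↔
        ∀ h ∈ T, AlmostPrime t (((p' ^ 2 : ℕ) : ℝ) ^ (1 / (t : ℝ))) (m + h) := by
      constructor
      · intro h2 h hh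
        have h3 := h2 (h : ℤ) ((hmem _).2 ⟨h, hh, rfl⟩)
        rwa [c0, hal] at h3
      · intro h2 d hd
        obtain ⟨h, hh, rfl⟩ := (hmem _).1 hd
        rw [c0, hal]
        exact h2 h hh
    have h2 : (∀ w ∈ W, ∃ q : ℕ, q.Prime ∧ q ≤ C ∧ (q : ℤ) ∣ ((1 : ℕ) : ℤ) * (m : ℤ) + w) ↔ Isolated T L C m := by
      unfold Isolated
      have c1 : ∀ w : ℤ, ((1 : ℕ) : ℤ) * (m : ℤ) + w = (m : ℤ) + w := fun w => by push_cast; ring
      simp only [c1]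
      constructor
      · intro h d h3 h4
        refine h d ?_
        rw [hW, mem_filter, mem_Icc]
        refine ⟨abs_le.1 h3, fun h5 => ?_⟩
        obtain ⟨g, hg, hg2⟩ := (hmem _).1 h5
        exact h4 g hg hg2.symm
      · intro h w hw
        rw [hW, mem_filter, mem_Icc] at hw
        exact h w (abs_le.2 hw.1) (fun g hg hg2 => hw.2 ((hmem _).2 ⟨g, hg, hg2.symm⟩))
    rw [h1, h2]
  -- the constants
  refine ⟨C, t, ht, κ / 2 ^ (T.card + 1), K, by positivity, hK, fun s r δ hs hδ => ?_⟩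
  obtain ⟨b, X₀, H1⟩ := H s r δ hs hδ
  -- growth
  obtain ⟨N₁, hN₁⟩ := ((Real.isLittleO_pow_log_id_atTop (n := T.card)).bound
    (show (0 : ℝ) < κ / (4 * 2 ^ (T.card + 1)) by positivity)).exists_forall_of_atTop
  obtain ⟨M₁, hM₁⟩ := exists_nat_ge N₁
  refine ⟨2 * b, X₀ + M₁ + 8, fun p p' hp hcons => ?_⟩
  obtain ⟨hp1, hp2, hlt, hno⟩ := hcons
  have hber : p' ≤ 2 * p := by
    by_contra hc
    push Not at hc
    obtain ⟨q, hq, hq1, hq2⟩ := Nat.exists_prime_lt_and_le_two_mul p (by omega)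
    exact hno q hq1 (by omega) hq
  obtain ⟨X, hX⟩ : ∃ X, X = p' ^ 2 := ⟨_, rfl⟩
  have hX1 : p ^ 2 + 2 * p + 1 ≤ X := by
    rw [hX]
    have : (p + 1) ^ 2 ≤ p' ^ 2 := Nat.pow_le_pow_left (by omega) 2
    have h2 : (p + 1) ^ 2 = p ^ 2 + 2 * p + 1 := by ring
    omega
  have hXp : p' ≤ X := by
    rw [hX]
    nlinarith
  have hcast : ((X - 1 : ℕ) : ℝ) = (p' : ℝ) ^ 2 - 1 := by
    rw [Nat.cast_sub (by omega), hX]
    push_cast
    ring
  have hcX : ((X : ℕ) : ℝ) = (p' : ℝ) ^ 2 := by rw [hX]; push_cast; ring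
  have hppR : (p : ℝ) + 1 ≤ p' := by exact_mod_cast hlt
  have hp8 : (8 : ℝ) ≤ p := by exact_mod_cast (by omega : 8 ≤ p)
  have hBA : (X : ℝ) ^ (1 / 3 : ℝ) ≤ ((X - 1 : ℕ) : ℝ) - ((p ^ 2 : ℕ) : ℝ) := by
    have h1 : (X : ℝ) ≤ (2 * (p : ℝ)) ^ 3 := by
      rw [hcX]
      have h2 : (p' : ℝ) ≤ 2 * p := by exact_mod_cast hber
      have h3 : (0 : ℝ) ≤ p' := Nat.cast_nonneg _
      calc (p' : ℝ) ^ 2 ≤ (2 * (p : ℝ)) ^ 2 := by gcongr
        _ ≤ (2 * (p : ℝ)) ^ 3 := pow_le_pow_right₀ (by linarith) (by norm_num)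
    have h4 : (X : ℝ) ^ (1 / 3 : ℝ) ≤ 2 * p := by
      calc (X : ℝ) ^ (1 / 3 : ℝ) ≤ ((2 * (p : ℝ)) ^ 3) ^ (1 / 3 : ℝ) :=
            Real.rpow_le_rpow (Nat.cast_nonneg _) h1 (by norm_num)
        _ = 2 * p := by
            rw [← Real.rpow_natCast, ← Real.rpow_mul (by positivity)]
            norm_num
    rw [hcast]
    push_cast
    nlinarith
  obtain ⟨h1, h2, h3⟩ := H1 X (by omega) (p ^ 2) (X - 1) (by omega) hBA
  have heq' : GN 1 T' W C t X (p ^ 2) (X - 1) = Between T L C t p p' := by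
    rw [hX]
    exact heq p p' (by omega)
  rw [heq'] at h1 h2 h3
  have hlog : Real.log (X : ℝ) = 2 * Real.log p' := by
    rw [hcX, Real.log_pow]
    norm_num
  rw [hlog, hcast] at h1 h2 h3
  have hlp : 2 ≤ Real.log p' := by
    have h4 : Real.log 8 ≤ Real.log p' := Real.log_le_log (by norm_num) (by linarith)
    have h5 : Real.log 8 = 3 * Real.log 2 := by
      rw [show (8 : ℝ) = 2 ^ 3 by norm_num, Real.log_pow]
      norm_num
    have h6 := Real.log_two_gt_d9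
    linarith
  have hlp0 : 0 < Real.log p' := by linarith
  have hd : 2 ≤ (p' : ℝ) ^ 2 - (p : ℝ) ^ 2 := by nlinarith
  have hpc : ((p ^ 2 : ℕ) : ℝ) = (p : ℝ) ^ 2 := by push_cast; ring
  rw [hpc] at h1 h2 h3
  have hmul : (2 * Real.log (p' : ℝ)) ^ T.card = 2 ^ T.card * Real.log p' ^ T.card := mul_pow _ _ _
  have hone : Real.log (p' : ℝ) ^ T.card ≤ (2 * Real.log (p' : ℝ)) ^ T.card := by
    apply pow_le_pow_left₀ hlp0.le
    linarith
  have hlow : κ / 2 ^ (T.card + 1) * ((p' : ℝ) ^ 2 - (p : ℝ) ^ 2) / Real.log p' ^ T.card ≤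
      ((Between T L C t p p').card : ℝ) := by
    refine le_trans ?_ h1
    rw [hmul]
    have e1 : κ / 2 ^ (T.card + 1) * ((p' : ℝ) ^ 2 - (p : ℝ) ^ 2) / Real.log p' ^ T.card =
        κ * (((p' : ℝ) ^ 2 - (p : ℝ) ^ 2) / 2) / (2 ^ T.card * Real.log p' ^ T.card) := by
      rw [pow_succ]
      field_simp
    rw [e1]
    gcongr
    linarith
  have hup : ∀ c : ℝ, 0 < c → c * ((p' : ℝ) ^ 2 - 1 - (p : ℝ) ^ 2) / (2 * Real.log (p' : ℝ)) ^ T.card ≤
      c * ((p' : ℝ) ^ 2 - (p : ℝ) ^ 2) / Real.log p' ^ T.card := by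
    intro c hc
    apply div_le_div₀ (by nlinarith) (by nlinarith) (by positivity) hone
  refine ⟨hlow, h2.trans (hup K hK), ?_, fun χ => ?_⟩
  · -- at least four elements
    have h4 := hN₁ (p' : ℝ) (hM₁.trans (by
      have : ((M₁ : ℕ) : ℝ) ≤ (p' : ℝ) := by exact_mod_cast (by omega : M₁ ≤ p')
      exact this))
    rw [Real.norm_of_nonneg (by positivity), id, Real.norm_of_nonneg (by positivity)] at h4
    have h5 : (p' : ℝ) ≤ (p' : ℝ) ^ 2 - (p : ℝ) ^ 2 := by nlinarith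
    have h6 : (4 : ℝ) ≤ κ / 2 ^ (T.card + 1) * ((p' : ℝ) ^ 2 - (p : ℝ) ^ 2) / Real.log p' ^ T.card := by
      rw [le_div_iff₀ (by positivity)]
      have h7 : 4 * (κ / (4 * 2 ^ (T.card + 1)) * (p' : ℝ)) = κ / 2 ^ (T.card + 1) * p' := by
        field_simp
      have h8 : κ / 2 ^ (T.card + 1) * (p' : ℝ) ≤ κ / 2 ^ (T.card + 1) * ((p' : ℝ) ^ 2 - (p : ℝ) ^ 2) := by
        gcongr
      linarith
    exact_mod_cast h6.trans hlow
  · obtain ⟨P, hP1, hP2, hP3⟩ := h3 χ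
    refine ⟨P, fun z hz => ⟨(hP1 z hz).1, (hP1 z hz).2.1.trans ?_, (hP1 z hz).2.2⟩, hP2, hP3.trans (hup δ hδ)⟩
    rw [mul_pow, two_mul b, pow_add]
    gcongr

end Pool.Agent.Results.MP_739ba1_nt.PatternsBetweenSquares
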