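import Mathlib
import Pool.Agent.T2H62.MK.G
import Pool.Agent.T2H62.MN.D

set_option autoImplicit false

/-! # The numbers of sieved random primes between consecutive squares are quantised

Random primes: every integer `n` without a prime factor `p ≤ A log n` is chosen with probability
`∏_{p ≤ A log n} (1 - 1/p)⁻¹ / log n` (at most `1`), the other integers are not chosen, and the choices are independent
(`A = 1`: Granville's modification of Cramer's model). Let `B(r)` be the number of the random primes between `r ^ 2` and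
`r' ^ 2` for consecutive random primes `r < r'`. Almost surely `B(r) = (r' - r) r / log r + O(r ^ (1/2 + ε))`, so that
`B(r) log r / r` differs from a positive even integer by at most `r ^ (-θ)` (`θ < 1/2`), and the even integer `2 m` occurs
`(1 + o(1)) 𝔖(2m) exp(-2m / log N) N / (log N) ^ 2` times for `N < r ≤ 2 N`, uniformly for `2 m ≤ λ log N`, where
`𝔖(2m)` is the constant of Hardy and Littlewood. -/

namespace Pool.Agent.Results.MP_739ba1_nt.QuantisedCounts

open Finset Filter Topology MeasureTheory ProbabilityTheory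

open scoped Classical in
/-- the probability that `n` is a random prime -/
noncomputable def prob (A : ℝ) (n : ℕ) : ℝ :=
  if ∀ p : ℕ, p.Prime → (p : ℝ) ≤ A * Real.log n → ¬ p ∣ n then
    min 1 ((∏ p ∈ (Icc 1 ⌊A * Real.log n⌋₊).filter Nat.Prime, (1 - (p : ℝ)⁻¹)⁻¹) / Real.log n) else 0

/-- the events `S n` (`n` is a random prime) are independent with the probabilities `prob A n` -/
def Model (A : ℝ) {Ω : Type*} [MeasurableSpace Ω] (μ : Measure Ω) (S : ℕ → Set Ω) : Prop :=
  IsProbabilityMeasure μ ∧ (∀ n, MeasurableSet (S n)) ∧ iIndepSet S μ ∧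
    ∀ n, μ (S n) = ENNReal.ofReal (prob A n)

/-- `r < r'` are consecutive elements of `R` -/
def Consecutive (R : Set ℕ) (r r' : ℕ) : Prop := r ∈ R ∧ r' ∈ R ∧ r < r' ∧ ∀ n : ℕ, r < n → n < r' → n ∉ R

open scoped Classical in
/-- the number of the elements of `R` strictly between `r ^ 2` and `r' ^ 2` -/
noncomputable def between (R : Set ℕ) (r r' : ℕ) : ℕ := ((Ioo (r ^ 2) (r' ^ 2)).filter (fun n => n ∈ R)).card

open scoped Classical in
/-- the number of the `r ∈ (N, 2 N]` in `R` whose successor `r'` in `R` satisfies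
`|between R r r' * log r / r - 2 m| ≤ r ^ (-θ)` -/
noncomputable def near (R : Set ℕ) (θ : ℝ) (m N : ℕ) : ℕ :=
  ((Ioc N (2 * N)).filter (fun r => ∃ r' : ℕ, Consecutive R r r' ∧
    |(between R r r' : ℝ) * Real.log r / r - 2 * m| ≤ (r : ℝ) ^ (-θ))).card

/-- the product over the primes `p ≤ z` of `(1 - 2/p) / (1 - 1/p) ^ 2`, with `2` in place of the factor for `p = 2` -/
noncomputable def twinProduct (z : ℕ) : ℝ :=
  ∏ p ∈ (Icc 1 z).filter Nat.Prime, (1 - (if p = 2 then (1 : ℝ) else 2) / p) * ((1 - (p : ℝ)⁻¹)⁻¹) ^ 2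

/-- the product of `(p - 1) / (p - 2)` over the odd primes `p` dividing `m` -/
noncomputable def factor (m : ℕ) : ℝ := ∏ p ∈ m.primeFactors.erase 2, ((p : ℝ) - 1) / (p - 2)

theorem result (A : ℝ) (hA : 0 < A) :
    -- the model exists
    (∃ (μ : Measure (ℕ → Bool)) (S : ℕ → Set (ℕ → Bool)), Model A μ S) ∧
    ∃ s : ℝ, 0 < s ∧ Tendsto twinProduct atTop (𝓝 s) ∧
    ∀ (Ω : Type) [MeasurableSpace Ω] (μ : Measure Ω) (S : ℕ → Set Ω), Model A μ S →
      ∀ᵐ ω ∂μ, ∀ R : Set ℕ, R = {n | ω ∈ S n} →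
        -- the number between the squares
        (∀ ε : ℝ, 0 < ε → ∀ᶠ r : ℕ in atTop, ∀ r' : ℕ, Consecutive R r r' →
          |(between R r r' : ℝ) - ((r' : ℝ) - r) * (r / Real.log r)| ≤ (r : ℝ) ^ (1 / 2 + ε)) ∧
        -- it is close to a multiple of `2 r / log r`
        (∀ θ : ℝ, θ < 1 / 2 → ∀ᶠ r : ℕ in atTop, ∀ r' : ℕ, Consecutive R r r' →
          ∃ m : ℕ, 1 ≤ m ∧ |(between R r r' : ℝ) * Real.log r / r - 2 * m| ≤ (r : ℝ) ^ (-θ)) ∧
        -- the frequency of each multiple
        ∀ θ : ℝ, 0 ≤ θ → θ < 1 / 2 → ∀ lam : ℝ, 0 < lam → ∀ ε : ℝ, 0 < ε → ∀ᶠ N : ℕ in atTop, ∀ m : ℕ, 1 ≤ m →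
          2 * (m : ℝ) ≤ lam * Real.log N →
          |(near R θ m N : ℝ) - s * factor m * Real.exp (-(2 * m / Real.log N)) * (N / Real.log N ^ 2)| ≤
            ε * (s * factor m * Real.exp (-(2 * m / Real.log N)) * (N / Real.log N ^ 2)) := by
  classical
  have hprob : ∀ n, prob A n = Pool.Agent.T2H53.GW.pr A n := fun n => rfl
  refine ⟨?_, ?_⟩
  · obtain ⟨μ, S, h1, h2, h3, h4⟩ := Pool.Agent.T2H53.GW.exists_model (prob A)
      (fun n => by rw [hprob]; exact Pool.Agent.T2H53.GW.pr_nonneg A n)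
      (fun n => by rw [hprob]; exact Pool.Agent.T2H53.GW.pr_le_one A n)
    exact ⟨μ, S, h1, h2, h3, h4⟩
  obtain ⟨s, hs, hSG⟩ := Pool.Agent.T2H62.MT.SG_lim
  refine ⟨s, hs, hSG.congr fun z => ?_, ?_⟩
  · rw [Pool.Agent.T2H62.MT.SG_SS]
    unfold Pool.Agent.T2H62.MD.SS twinProduct
    have hc2 : ({1, 3} : Finset ℕ).card = 2 := by decide
    rw [hc2]
    refine prod_congr rfl fun p hp => ?_
    have hpp := (mem_filter.1 hp).2
    have h1 := Pool.Agent.T2H62.ME.nu_pair 1 2 p
    have h2 : ({1, 1 + 2} : Finset ℕ) = {1, 3} := rfl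
    rw [h2] at h1
    rw [h1]
    by_cases h3 : p = 2
    · rw [if_pos h3, if_pos (by rw [h3])]
    · rw [if_neg h3, if_neg (fun h4 => h3 ((Nat.prime_dvd_prime_iff_eq hpp Nat.prime_two).1 h4))]
  · rintro Ω _ μ S ⟨hμ, hm, hi, hp⟩
    have hp' : ∀ n, μ.real (S n) = Pool.Agent.T2H53.GW.pr A n := fun n => by
      rw [measureReal_def, hp n, ENNReal.toReal_ofReal (by rw [hprob]; exact Pool.Agent.T2H53.GW.pr_nonneg A n), hprob]
    filter_upwards [Pool.Agent.T2H62.MK.all_ae hA hm hi hp' s hs hSG, Pool.Agent.T2H62.MN.brocard_sharp A hA hm hi hp',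
      Pool.Agent.T2H62.MD.ae_odd A hA hp'] with ω hω hsharp hodd R hR
    obtain ⟨hunb, hE, -, -⟩ := hω R hR
    have hmem : ∀ n, n ∈ R ↔ ω ∈ S n := fun n => by rw [hR]; rfl
    have hB : ∀ r r' : ℕ, Pool.Agent.T2H62.MD.cnt (Ioo (r ^ 2) (r' ^ 2)) S ω = (between R r r' : ℝ) := by
      intro r r'
      rw [Pool.Agent.T2H62.MD.cnt_eq]
      unfold between
      simp only [hmem]
    have ha : ∀ ε : ℝ, 0 < ε → ∀ᶠ r : ℕ in atTop, ∀ r' : ℕ, Consecutive R r r' →
          |(between R r r' : ℝ) - ((r' : ℝ) - r) * (r / Real.log r)| ≤ (r : ℝ) ^ (1 / 2 + ε) := by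
      intro ε hε
      filter_upwards [hsharp ε hε] with r h1 r' h2
      have h3 := h1 r' h2.2.2.1 (fun n hn => by
        rw [mem_Ioo] at hn
        rw [← hmem]
        exact h2.2.2.2 n hn.1 hn.2)
      rw [hB] at h3
      exact h3
    -- the distance from the gap
    have hdist : ∀ θ : ℝ, θ < 1 / 2 → ∀ᶠ r : ℕ in atTop, ∀ r' : ℕ, Consecutive R r r' →
        |(between R r r' : ℝ) * Real.log r / r - ((r' : ℝ) - r)| < (r : ℝ) ^ (-θ) := by
      intro θ hθ
      obtain ⟨e, he⟩ : ∃ e : ℝ, e = (1 / 2 - θ) / 2 := ⟨_, rfl⟩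
      have he0 : 0 < e := by rw [he]; linarith
      filter_upwards [ha e he0, Pool.Agent.T2H62.MD.log_pow_small 1 2 e he0 (by norm_num), eventually_ge_atTop 3]
        with r h1 h2 h3 r' h4
      have h5 := h1 r' h4
      have hr0 : (0 : ℝ) < r := by exact_mod_cast (by omega : 0 < r)
      have hl0 : 0 < Real.log (r : ℝ) := Real.log_pos (by exact_mod_cast (by omega : 1 < r))
      rw [pow_one] at h2
      have h6 : (between R r r' : ℝ) * Real.log r / r - ((r' : ℝ) - r) =
          ((between R r r' : ℝ) - ((r' : ℝ) - r) * (r / Real.log r)) * (Real.log r / r) := by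
        field_simp
      rw [h6, abs_mul, abs_of_pos (show 0 < Real.log (r : ℝ) / r by positivity)]
      have h7 : 0 < (r : ℝ) ^ (1 / 2 + e) := by positivity
      calc |(between R r r' : ℝ) - ((r' : ℝ) - r) * (r / Real.log r)| * (Real.log r / r) ≤
            (r : ℝ) ^ (1 / 2 + e) * (Real.log r / r) := mul_le_mul_of_nonneg_right h5 (by positivity)
        _ < (r : ℝ) ^ (1 / 2 + e) * ((r : ℝ) ^ e / r) := by
            apply mul_lt_mul_of_pos_left _ h7
            apply div_lt_div_of_pos_right _ hr0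
            linarith
        _ = (r : ℝ) ^ (-θ) := by
            rw [← Real.rpow_sub_one hr0.ne', ← Real.rpow_add hr0]
            congr 1
            rw [he]
            ring
    -- even gaps
    have heven : ∀ᶠ r : ℕ in atTop, ∀ r' : ℕ, Consecutive R r r' → ∃ m : ℕ, 1 ≤ m ∧ r' = r + 2 * m := by
      obtain ⟨n₀, hn₀⟩ := eventually_atTop.1 hodd
      filter_upwards [eventually_ge_atTop n₀] with r h1 r' h2
      have h3 := hn₀ r h1 ((hmem r).1 h2.1)
      have h4 := hn₀ r' (by have := h2.2.2.1; omega) ((hmem r').1 h2.2.1)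
      have h5 := h2.2.2.1
      exact ⟨(r' - r) / 2, by omega, by omega⟩
    refine ⟨ha, ?_, ?_⟩
    · intro θ hθ
      filter_upwards [hdist θ hθ, heven] with r h1 h2 r' h3
      obtain ⟨m, hm1, rfl⟩ := h2 r' h3
      refine ⟨m, hm1, ?_⟩
      have h4 := h1 _ h3
      push_cast at h4
      rw [add_sub_cancel_left] at h4
      exact h4.le
    · intro θ hθ0 hθ lam hl ε hε
      obtain ⟨r₀, hr₀⟩ := eventually_atTop.1 (hdist θ hθ)
      obtain ⟨r₁, hr₁⟩ := eventually_atTop.1 heven
      filter_upwards [Pool.Agent.T2H62.MK.NG_law hunb s hs hE lam hl ε hε, eventually_ge_atTop (r₀ + r₁ + 1)]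
        with N hN hNr m hm1 hm2
      have h1 := hN (2 * m) (by omega) (Dvd.intro _ rfl) (by push_cast; exact hm2)
      have h2 : Pool.Agent.T2H62.MK.NG R (2 * m) N = near R θ m N := by
        rw [Pool.Agent.T2H62.MK.NG_eq hunb N (2 * m) (by omega)]
        unfold Pool.Agent.T2H62.MK.CR near
        congr 1
        apply filter_congr
        intro r hr
        rw [mem_Ioc] at hr
        have hr1 : (1 : ℝ) ≤ r := by exact_mod_cast (by omega : 1 ≤ r)
        have hle1 : (r : ℝ) ^ (-θ) ≤ 1 := by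
          calc (r : ℝ) ^ (-θ) ≤ (r : ℝ) ^ (0 : ℝ) := Real.rpow_le_rpow_of_exponent_le hr1 (by linarith)
            _ = 1 := Real.rpow_zero _
        constructor
        · rintro ⟨g1, g2, g3⟩
          have hc : Consecutive R r (r + 2 * m) := by
            refine ⟨g1, g2, by omega, fun n hn1 hn2 => ?_⟩
            have g4 := g3 (n - r) (by rw [mem_Icc]; omega)
            have e : r + (n - r) = n := by omega
            rwa [e] at g4
          refine ⟨r + 2 * m, hc, ?_⟩
          have g5 := hr₀ r (by omega) _ hc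
          push_cast at g5
          rw [add_sub_cancel_left] at g5
          exact g5.le
        · rintro ⟨r', hc, g1⟩
          obtain ⟨m', hm', hr'⟩ := hr₁ r (by omega) r' hc
          have g2 := hr₀ r (by omega) _ hc
          have g3 : ((r' : ℝ) - r) = 2 * m' := by rw [hr']; push_cast; ring
          rw [g3] at g2
          have g4 : |(2 * m' : ℝ) - 2 * m| < 2 := by
            have g5 := abs_lt.1 g2
            have g6 := abs_le.1 g1
            rw [abs_lt]
            constructor <;> linarith [g5.1, g5.2, g6.1, g6.2]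
          have g5 : m' = m := by
            have g6 := abs_lt.1 g4
            have g7 : (m' : ℝ) < m + 1 := by linarith [g6.2]
            have g8 : (m : ℝ) < m' + 1 := by linarith [g6.1]
            have g9 : m' < m + 1 := by exact_mod_cast g7
            have g10 : m < m' + 1 := by exact_mod_cast g8
            omega
          rw [g5] at hr'
          rw [hr'] at hc
          refine ⟨hc.1, hc.2.1, fun a ha => ?_⟩
          rw [mem_Icc] at ha
          exact hc.2.2.2 (r + a) (by omega) (by omega)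
      have h3 : Pool.Agent.T2H62.MK.FP (2 * m) = factor m := by
        unfold Pool.Agent.T2H62.MK.FP factor
        refine prod_congr ?_ fun _ _ => rfl
        ext p
        rw [mem_erase, mem_erase, Nat.mem_primeFactors, Nat.mem_primeFactors]
        constructor
        · rintro ⟨g1, g2, g3, -⟩
          refine ⟨g1, g2, ?_, by omega⟩
          rcases (Nat.Prime.dvd_mul g2).1 g3 with g4 | g4
          · exact absurd ((Nat.prime_dvd_prime_iff_eq g2 Nat.prime_two).1 g4) g1
          · exact g4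
        · rintro ⟨g1, g2, g3, -⟩
          exact ⟨g1, g2, Dvd.dvd.mul_left g3 2, by omega⟩
      rw [h2, h3] at h1
      push_cast at h1
      exact h1

end Pool.Agent.Results.MP_739ba1_nt.QuantisedCounts
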