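import Mathlib
import Pool.Agent.T2H62.MD.W

set_option autoImplicit false

/-! # Sieved random primes between the squares of consecutive random primes

Random primes: every integer `n` without a prime factor `p ≤ A log n` is chosen with probability
`∏_{p ≤ A log n} (1 - 1/p)⁻¹ / log n` (at most `1`), the other integers are not chosen, and the choices are independent
(`A = 1`: Granville's modification of Cramer's model). Almost surely, for the set `R` of the random primes, uniformly for
consecutive elements `r < r'` of `R`, the number of elements of `R` between `r ^ 2` and `r' ^ 2` is asymptotic to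
`(r' ^ 2 - r ^ 2) / (2 log r)`. So Brocard's inequality holds for all large `r`; the number is at least
`(2 - δ) r / log r` for all large `r` and at most `(2 + δ) r / log r` infinitely often. -/

namespace Pool.Agent.Results.MP_739ba1_nt.SievedRandomSquares

open Finset Filter Topology MeasureTheory ProbabilityTheory

open scoped Classical in
/-- the probability that `n` is a random prime -/
noncomputable def prob (A : ℝ) (n : ℕ) : ℝ :=
  if ∀ p : ℕ, p.Prime → (p : ℝ) ≤ A * Real.log n → ¬ p ∣ n then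
    min 1 ((∏ p ∈ (Icc 1 ⌊A * Real.log n⌋₊).filter Nat.Prime, (1 - (p : ℝ)⁻¹)⁻¹) / Real.log n) else 0

/-- the events `S n` (`n` is a random prime) are independent with the probabilities `prob A n` -/
def Model (A : ℝ) {Ω : Type*} [MeasurableSpace Ω] (μ : Measure Ω) (S : ℕ → Set Ω) : Prop :=
  IsProbabilityMeasure μ ∧ (∀ n, MeasurableSet (S n)) ∧ iIndepSet S μ ∧
    ∀ n, μ (S n) = ENNReal.ofReal (prob A n)

/-- `r < r'` are consecutive elements of `R` -/
def Consecutive (R : Set ℕ) (r r' : ℕ) : Prop := r ∈ R ∧ r' ∈ R ∧ r < r' ∧ ∀ n ∈ Ioo r r', n ∉ R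

open scoped Classical in
/-- the number of the elements of `R` strictly between `r ^ 2` and `r' ^ 2` -/
noncomputable def between (R : Set ℕ) (r r' : ℕ) : ℕ := ((Ioo (r ^ 2) (r' ^ 2)).filter (fun n => n ∈ R)).card

theorem result (A : ℝ) (hA : 0 < A) :
    -- the model exists
    (∃ (μ : Measure (ℕ → Bool)) (S : ℕ → Set (ℕ → Bool)), Model A μ S) ∧
    ∀ (Ω : Type) [MeasurableSpace Ω] (μ : Measure Ω) (S : ℕ → Set Ω), Model A μ S →
      ∀ᵐ ω ∂μ,
        -- the asymptotic formula
        (∀ δ : ℝ, 0 < δ → ∀ᶠ r : ℕ in atTop, ∀ r' : ℕ, Consecutive {n | ω ∈ S n} r r' →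
          |(between {n | ω ∈ S n} r r' : ℝ) - ((r' : ℝ) ^ 2 - r ^ 2) / (2 * Real.log r)| ≤
            δ * (((r' : ℝ) ^ 2 - r ^ 2) / (2 * Real.log r))) ∧
        -- Brocard's inequality
        (∀ᶠ r : ℕ in atTop, ∀ r' : ℕ, Consecutive {n | ω ∈ S n} r r' → 4 ≤ between {n | ω ∈ S n} r r') ∧
        -- the minimal order
        (∀ δ : ℝ, 0 < δ → ∀ᶠ r : ℕ in atTop, ∀ r' : ℕ, Consecutive {n | ω ∈ S n} r r' →
          (2 - δ) * (r / Real.log r) ≤ between {n | ω ∈ S n} r r') ∧
        ∀ δ : ℝ, 0 < δ → ∃ᶠ r : ℕ in atTop, ∃ r' : ℕ, Consecutive {n | ω ∈ S n} r r' ∧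
          (between {n | ω ∈ S n} r r' : ℝ) ≤ (2 + δ) * (r / Real.log r) := by
  classical
  have hprob : ∀ n, prob A n = Pool.Agent.T2H53.GW.pr A n := fun n => rfl
  refine ⟨?_, ?_⟩
  · obtain ⟨μ, S, h1, h2, h3, h4⟩ := Pool.Agent.T2H53.GW.exists_model (prob A)
      (fun n => by rw [hprob]; exact Pool.Agent.T2H53.GW.pr_nonneg A n)
      (fun n => by rw [hprob]; exact Pool.Agent.T2H53.GW.pr_le_one A n)
    exact ⟨μ, S, h1, h2, h3, h4⟩
  · rintro Ω _ μ S ⟨hμ, hm, hi, hp⟩
    have hp' : ∀ n, μ.real (S n) = Pool.Agent.T2H53.GW.pr A n := fun n => by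
      rw [measureReal_def, hp n, ENNReal.toReal_ofReal (by rw [hprob]; exact Pool.Agent.T2H53.GW.pr_nonneg A n), hprob]
    filter_upwards [Pool.Agent.T2H62.MD.brocard A hA hm hi hp'] with ω hω
    obtain ⟨h1, h2, h3⟩ := hω {n | ω ∈ S n} (fun n => Classical.propDecidable _) rfl
    obtain ⟨R, hR⟩ : ∃ R : Set ℕ, R = {n | ω ∈ S n} := ⟨_, rfl⟩
    rw [← hR] at h1 h2 h3 ⊢
    have hTn : Tendsto (fun n : ℕ => (n : ℝ)) atTop atTop := tendsto_natCast_atTop_atTop
    have hL : Tendsto (fun n : ℕ => Real.log (n : ℝ)) atTop atTop := Real.tendsto_log_atTop.comp hTn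
    have hmain : ∀ δ : ℝ, 0 < δ → ∀ᶠ r : ℕ in atTop, ∀ r' : ℕ, Consecutive R r r' →
          |(between R r r' : ℝ) - ((r' : ℝ) ^ 2 - r ^ 2) / (2 * Real.log r)| ≤
            δ * (((r' : ℝ) ^ 2 - r ^ 2) / (2 * Real.log r)) := by
      intro δ hδ
      filter_upwards [h1 δ hδ] with r h4 r' h5
      have h6 := h4 r' h5.2.2.1 h5.2.2.2
      convert h6 using 6
      unfold between
      congr
    have hlow : ∀ δ : ℝ, 0 < δ → ∀ᶠ r : ℕ in atTop, ∀ r' : ℕ, Consecutive R r r' →
          (2 - δ) * (r / Real.log r) ≤ between R r r' := by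
      intro δ hδ
      obtain ⟨n₀, hn₀⟩ := eventually_atTop.1 h2
      obtain ⟨e, he⟩ : ∃ e : ℝ, e = min (δ / 2) 1 := ⟨_, rfl⟩
      have he0 : 0 < e := by rw [he]; exact lt_min (by positivity) one_pos
      have he1 : e ≤ δ / 2 := by rw [he]; exact min_le_left _ _
      have he2 : e ≤ 1 := by rw [he]; exact min_le_right _ _
      filter_upwards [hmain e he0, eventually_ge_atTop n₀, eventually_ge_atTop 3] with r h4 h5 h6 r' h7
      have h8 := (abs_le.1 (h4 r' h7)).1
      have h9 := hn₀ r h5 h7.1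
      have h10 := hn₀ r' (by have := h7.2.2.1; omega) h7.2.1
      have h11 : r + 2 ≤ r' := by have := h7.2.2.1; omega
      have h12 : (r : ℝ) + 2 ≤ r' := by exact_mod_cast h11
      have hr0 : (0 : ℝ) < r := by exact_mod_cast (by omega : 0 < r)
      have hl : 0 < Real.log (r : ℝ) := Real.log_pos (by exact_mod_cast (by omega : 1 < r))
      have h13 : 2 * (r / Real.log r) ≤ ((r' : ℝ) ^ 2 - r ^ 2) / (2 * Real.log r) := by
        rw [← mul_div_assoc, div_le_div_iff₀ hl (by positivity)]
        have h14 : 4 * (r : ℝ) ≤ (r' : ℝ) ^ 2 - r ^ 2 := by nlinarith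
        nlinarith
      have h14 : 0 < r / Real.log (r : ℝ) := by positivity
      nlinarith
    refine ⟨hmain, ?_, hlow, ?_⟩
    · have h4 : (fun x : ℝ => Real.log x) =o[atTop] (fun x : ℝ => x) := Real.isLittleO_log_id_atTop
      have h5 := (h4.comp_tendsto hTn).bound (show (0 : ℝ) < 1 / 4 by norm_num)
      filter_upwards [hlow 1 one_pos, h5, eventually_ge_atTop 3] with r h6 h7 h8 r' h9
      have h10 := h6 r' h9
      have hr0 : (0 : ℝ) < r := by exact_mod_cast (by omega : 0 < r)
      have hl : 0 < Real.log (r : ℝ) := Real.log_pos (by exact_mod_cast (by omega : 1 < r))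
      simp only [Function.comp, Real.norm_eq_abs, abs_of_pos hl, abs_of_pos hr0] at h7
      have h11 : 4 ≤ r / Real.log (r : ℝ) := by
        rw [le_div_iff₀ hl]
        linarith
      have h12 : (4 : ℝ) ≤ between R r r' := by linarith
      exact_mod_cast h12
    · intro δ hδ
      obtain ⟨n₀, hn₀⟩ := eventually_atTop.1 h2
      obtain ⟨n₁, hn₁⟩ := eventually_atTop.1 (hmain (min (δ / 8) 1) (lt_min (by positivity) one_pos))
      obtain ⟨n₂, hn₂⟩ := eventually_atTop.1 h3
      rw [frequently_atTop]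
      intro a
      obtain ⟨r, hr1, hr2, hr3⟩ := hn₂ (a + n₀ + n₁ + n₂ + 3 + ⌈8 / δ⌉₊) (by omega)
      have h4 := hn₀ r (by omega) hr2
      have hcon : Consecutive R r (r + 2) := by
        refine ⟨hr2, hr3, by omega, fun n hn hnR => ?_⟩
        rw [mem_Ioo] at hn
        have h5 : n = r + 1 := by omega
        have h6 := hn₀ n (by omega) hnR
        omega
      refine ⟨r, by omega, r + 2, hcon, ?_⟩
      have h5 := (abs_le.1 (hn₁ r (by omega) (r + 2) hcon)).2
      have hr0 : (0 : ℝ) < r := by exact_mod_cast (by omega : 0 < r)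
      have hl : 0 < Real.log (r : ℝ) := Real.log_pos (by exact_mod_cast (by omega : 1 < r))
      have h6 : (((r + 2 : ℕ) : ℝ) ^ 2 - (r : ℝ) ^ 2) / (2 * Real.log r) = (2 + 2 / r) * (r / Real.log r) := by
        push_cast
        field_simp
        ring
      rw [h6] at h5
      have h7 : 8 / δ ≤ r := by
        refine (Nat.le_ceil _).trans ?_
        exact_mod_cast (by omega : ⌈8 / δ⌉₊ ≤ r)
      have h8 : 2 / (r : ℝ) ≤ δ / 4 := by
        rw [div_le_iff₀ hδ] at h7
        rw [div_le_iff₀ hr0]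
        linarith
      have h9 : 0 < r / Real.log (r : ℝ) := by positivity
      have h10 : min (δ / 8) 1 ≤ δ / 8 := min_le_left _ _
      have h11 : min (δ / 8) 1 ≤ 1 := min_le_right _ _
      have h12 : 0 < min (δ / 8) 1 := lt_min (by positivity) one_pos
      obtain ⟨e, he⟩ : ∃ e, e = min (δ / 8) 1 := ⟨_, rfl⟩
      rw [← he] at h5 h10 h11 h12
      have h13 : 0 < 2 / (r : ℝ) := by positivity
      have h14 : (1 + e) * (2 + 2 / (r : ℝ)) ≤ 2 + δ := by
        nlinarith
      have h15 : (between R r (r + 2) : ℝ) ≤ ((1 + e) * (2 + 2 / (r : ℝ))) * (r / Real.log r) := by linarith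
      exact h15.trans (mul_le_mul_of_nonneg_right h14 h9.le)

end Pool.Agent.Results.MP_739ba1_nt.SievedRandomSquares
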